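import Pool.Agent.N856.QB.Stm
import Pool.Agent.N814.JL.FEW
import Pool.Agent.N814.JL.MER
import Pool.Agent.Y488.CX.Sie

/-!
# QB-FEW: few `n`, respectively `d`, have few (inert) prime factors (helper713)
-/

set_option autoImplicit false

open scoped Classical

namespace Pool.Agent.N713.QB.FEW

open Finset
open Pool.Agent.Y703.CX (la zz)
open Pool.Agent.N916.GB (Po SA)
open Pool.Agent.N856.JL (Dsc)
open Pool.Agent.N856.QB (inr S_FEWn S_FEWd)

/-- a class of nonresidues -/
lemma nonres {x : ℕ} (hx : Squarefree x) (ho : x % 2 = 1) (h1 : 1 < x) :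
    ∃ a : ℕ, jacobiSym (a : ℤ) x = -1 := by
  obtain ⟨l, hl, hlx⟩ := Nat.exists_prime_and_dvd (by omega : x ≠ 1)
  obtain ⟨g, rfl⟩ := hlx
  have : Fact l.Prime := ⟨hl⟩
  have hl2 : l ≠ 2 := by
    rintro rfl
    omega
  have hcop : l.Coprime g := Nat.coprime_of_squarefree_mul hx
  obtain ⟨x, hx⟩ := quadraticChar_exists_neg_one (F := ZMod l)
    (by rw [ZMod.ringChar_zmod_n]; exact hl2)
  obtain ⟨a, ha1, ha2⟩ := Nat.chineseRemainder hcop x.val 1
  refine ⟨a, ?_⟩
  have hg0 : g ≠ 0 := by rintro rfl; simp at h1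
  have : NeZero g := ⟨hg0⟩
  have : NeZero l := ⟨hl.ne_zero⟩
  rw [jacobiSym.mul_right]
  have e1 : jacobiSym (a : ℤ) l = -1 := by
    rw [← jacobiSym.legendreSym.to_jacobiSym]
    unfold legendreSym
    have h : ((a : ℤ) : ZMod l) = x := by
      have h2 : ((a : ℕ) : ZMod l) = ((x.val : ℕ) : ZMod l) :=
        (ZMod.natCast_eq_natCast_iff _ _ _).2 ha1
      rw [ZMod.natCast_zmod_val] at h2
      exact_mod_cast h2
    rw [h]
    exact hx
  have e2 : jacobiSym (a : ℤ) g = 1 := by
    have h2 : ((a : ℤ)) % g = (1 : ℤ) % g := by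
      have : a % g = 1 % g := ha2
      exact_mod_cast this
    rw [jacobiSym.mod_left, h2, ← jacobiSym.mod_left, jacobiSym.one_left]
  rw [e1, e2]
  norm_num

/-- the general bound for the odd squarefree numbers -/
lemma odd_bound {Q a : ℕ} (hQ : 1 ≤ Q) (ha : a.Coprime Q) (B : ℕ) (ε : ℝ) (hε : 0 < ε) :
    ∃ X₀ : ℕ, ∀ X : ℕ, X₀ ≤ X → (((Icc 1 X).filter fun n : ℕ => Squarefree n ∧ n % 2 = 1 ∧
      (n.primeFactors.filter fun p => p % Q = a % Q).card < B).card : ℝ) ≤ ε * X := by
  obtain ⟨X₀, h⟩ := Pool.Agent.N814.JL.FEW.t_FEWQ Pool.Agent.Y488.CX.t_SIE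
    Pool.Agent.N814.JL.MER.t_MEQ Q a hQ ha 0 B ε hε
  refine ⟨X₀, fun X hX => le_trans ?_ (h X hX)⟩
  rw [Nat.cast_le]
  refine card_le_card_of_injOn (fun n => n.primeFactors) ?_ ?_
  · intro n hn
    rw [mem_coe, mem_filter, mem_Icc] at hn
    obtain ⟨⟨h1, h2⟩, h3, h4, h5⟩ := hn
    rw [mem_coe, mem_filter]
    have hp : ∏ p ∈ n.primeFactors, p = n := Nat.prod_primeFactors_of_squarefree h3
    refine ⟨?_, ?_⟩
    · unfold SA
      rw [mem_filter, mem_powerset]
      refine ⟨fun p hp => ?_, fun p hp => ⟨(Nat.mem_primeFactors.1 hp).1, ?_⟩, ?_⟩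
      · rw [mem_range]
        have := Nat.le_of_mem_primeFactors hp
        omega
      · rintro rfl
        have := (Nat.mem_primeFactors.1 hp).2.1
        omega
      · rw [hp]
        exact h2
    · rw [zero_mul, zero_add]
      refine lt_of_le_of_lt (card_le_card (filter_subset_filter _ ?_)) h5
      unfold la
      exact filter_subset _ _
  · intro n hn m hm hnm
    rw [mem_coe, mem_filter] at hn hm
    have h1 := Nat.prod_primeFactors_of_squarefree hn.2.1
    have h2 := Nat.prod_primeFactors_of_squarefree hm.2.1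
    rw [← h1, ← h2]
    simp only at hnm
    rw [hnm]

/-- the general bound -/
lemma all_bound (P : ℕ → Prop) {Q a : ℕ} (hQ : 1 ≤ Q) (ha : a.Coprime Q)
    (hP : ∀ p : ℕ, p.Prime → p ≠ 2 → p % Q = a % Q → P p) (B : ℕ) (ε : ℝ) (hε : 0 < ε) :
    ∃ X₀ : ℕ, ∀ X : ℕ, X₀ ≤ X → (((Icc 1 X).filter fun n : ℕ => Squarefree n ∧
      (n.primeFactors.filter P).card < B).card : ℝ) ≤ ε * X := by
  obtain ⟨X₀, h⟩ := odd_bound hQ ha (B) (ε / 2) (by positivity)
  refine ⟨X₀, fun X hX => ?_⟩
  have h0 := h X hX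
  set T := (Icc 1 X).filter fun n : ℕ => Squarefree n ∧ n % 2 = 1 ∧
      (n.primeFactors.filter fun p => p % Q = a % Q).card < B with hT
  have key : ∀ n : ℕ, Squarefree n → n % 2 = 1 → (n.primeFactors.filter P).card < B →
      (n.primeFactors.filter fun p => p % Q = a % Q).card < B := by
    intro n h1 h2 h3
    refine lt_of_le_of_lt (card_le_card ?_) h3
    intro p hp
    rw [mem_filter] at hp ⊢
    refine ⟨hp.1, hP p (Nat.mem_primeFactors.1 hp.1).1 ?_ hp.2⟩
    rintro rfl
    have := (Nat.mem_primeFactors.1 hp.1).2.1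
    omega
  have h1 : ((Icc 1 X).filter fun n : ℕ => Squarefree n ∧ (n.primeFactors.filter P).card < B) ⊆
      T ∪ T.image (fun n => 2 * n) := by
    intro n hn
    rw [mem_filter, mem_Icc] at hn
    obtain ⟨⟨h2, h3⟩, h4, h5⟩ := hn
    rw [mem_union]
    rcases Nat.mod_two_eq_zero_or_one n with h6 | h6
    · right
      obtain ⟨k, rfl⟩ : 2 ∣ n := Nat.dvd_of_mod_eq_zero h6
      have hk0 : k ≠ 0 := by rintro rfl; omega
      have hk : Squarefree k := h4.squarefree_of_dvd (dvd_mul_left _ _)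
      have hk2 : k % 2 = 1 := by
        rcases Nat.mod_two_eq_zero_or_one k with h7 | h7
        · exfalso
          have h8 : 2 * 2 ∣ 2 * k := Nat.mul_dvd_mul_left 2 (Nat.dvd_of_mod_eq_zero h7)
          have := h4 2 h8
          rw [Nat.isUnit_iff] at this
          omega
        · exact h7
      rw [mem_image]
      refine ⟨k, ?_, rfl⟩
      rw [hT, mem_filter, mem_Icc]
      refine ⟨⟨by omega, by omega⟩, hk, hk2, key k hk hk2 (lt_of_le_of_lt (card_le_card ?_) h5)⟩
      refine filter_subset_filter _ ?_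
      exact Nat.primeFactors_mono (dvd_mul_left _ _) (by omega)
    · left
      rw [hT, mem_filter, mem_Icc]
      exact ⟨⟨h2, h3⟩, h4, h6, key n h4 h6 h5⟩
  have h2 : ((((Icc 1 X).filter fun n : ℕ => Squarefree n ∧
      (n.primeFactors.filter P).card < B).card : ℕ) : ℝ) ≤ (T.card : ℝ) + (T.card : ℝ) := by
    have h3 := (card_le_card h1).trans (card_union_le _ _)
    have h4 : (T.image (fun n => 2 * n)).card ≤ T.card := card_image_le
    have h5 := h3.trans (Nat.add_le_add_left h4 _)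
    exact_mod_cast h5
  refine h2.trans ?_
  calc (T.card : ℝ) + T.card ≤ ε / 2 * X + ε / 2 * X := add_le_add h0 h0
    _ = ε * X := by ring

theorem t_FEWn : S_FEWn := by
  intro d hd h1 B ε hε
  obtain ⟨hs, h12, h5⟩ := hd
  have h4 : d % 4 = 1 := by omega
  obtain ⟨c, hc⟩ := nonres hs (by omega) h1
  have hne : NeZero d := ⟨by omega⟩
  have hcop : c.Coprime d := by
    have : IsCoprime (c : ℤ) (d : ℤ) := by
      by_contra hcon
      rw [Int.isCoprime_iff_gcd_eq_one] at hcon
      have := (jacobiSym.eq_zero_iff_not_coprime (a := (c : ℤ)) (b := d)).2 hcon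
      omega
    exact_mod_cast Nat.isCoprime_iff_coprime.1 this
  have hP : ∀ p : ℕ, p.Prime → p ≠ 2 → p % d = c % d → jacobiSym (d : ℤ) p = -1 := by
    intro p hp h2 h3
    have hpo : Odd p := hp.odd_of_ne_two h2
    rw [jacobiSym.quadratic_reciprocity_one_mod_four h4 hpo]
    have h6 : ((p : ℤ)) % (d : ℤ) = (c : ℤ) % (d : ℤ) := by exact_mod_cast h3
    rw [jacobiSym.mod_left, h6, ← jacobiSym.mod_left]
    exact hc
  obtain ⟨X₀, h⟩ := all_bound (fun p => jacobiSym d p = -1) (Q := d) (a := c) (by omega) hcop hP B ε hε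
  refine ⟨X₀, fun X hX => le_trans (le_of_eq ?_) (h X hX)⟩
  have e : ∀ n : ℕ, inr n d = (n.primeFactors.filter fun p => jacobiSym d p = -1).card := by
    intro n
    unfold inr
    congr!
  congr 2
  refine filter_congr fun n _ => ?_
  rw [e n]
  have e2 : (@filter ℕ (fun p => jacobiSym (d : ℤ) p = -1) (fun a => Classical.propDecidable _)
      n.primeFactors) = n.primeFactors.filter fun p => jacobiSym d p = -1 := by congr!
  rw [e2]

theorem t_FEWd : S_FEWd := by
  intro B ε hε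
  obtain ⟨X₀, h⟩ := all_bound (fun _ => True) (Q := 1) (a := 0) le_rfl (by simp)
    (fun _ _ _ _ => trivial) B ε hε
  refine ⟨X₀, fun X hX => ?_⟩
  have h1 := h X hX
  simp only [filter_true] at h1
  exact h1

end Pool.Agent.N713.QB.FEW
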